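import Mathlib

set_option autoImplicit false
open Filter Topology


namespace DPV

/-- The scales. -/
def a (j : ℕ) : ℕ := 2 ^ (j ^ 2)

/-- The cost of opening branch number j. -/
noncomputable def c (j : ℕ) : ℝ := 1 / ((Nat.sqrt j : ℝ) + 1)

/-- Clamp to the unit interval. -/
noncomputable def kap (x : ℝ) : ℝ := max 0 (min x 1)

/-- States: current level, current branch, age of the branch. -/
abbrev ZZ : Type := ℝ × ℕ × ℕ

/-- The window of branch j. -/
noncomputable def w (j u : ℕ) : ℝ := if a j ≤ u ∧ u < a (j + 2) then 1 else 0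

/-- Transitions: let the branch grow older, or open a new branch at a cost. -/
def F (z : ZZ) : Set ZZ :=
  {z' | z' = (z.1, z.2.1, z.2.2 + 1) ∨ ∃ j : ℕ, z' = (z.1 - c j, j, 0)}

/-- Payoff. -/
noncomputable def r (z : ZZ) : ℝ := w z.2.1 z.2.2 * kap z.1

def IsPlay (s : ℕ → ZZ) : Prop := ∀ t, s (t + 1) ∈ F (s t)

noncomputable def val (θ : ℕ → ℝ) (z : ZZ) : ℝ :=
  sSup {x : ℝ | ∃ s : ℕ → ZZ, s 0 = z ∧ (∀ t, s (t + 1) ∈ F (s t)) ∧
    x = ∑' t, θ t * r (s (t + 1))}

lemma c_pos (j : ℕ) : 0 < c j := by unfold c; positivity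

lemma a_pos (j : ℕ) : 0 < a j := by unfold a; positivity

lemma a_mono : Monotone a := by
  intro i j h
  unfold a
  exact Nat.pow_le_pow_right (by norm_num) (Nat.pow_le_pow_left h 2)

lemma lt_a (j : ℕ) : j < a j := by
  unfold a
  calc j < 2 ^ j := Nat.lt_two_pow_self
    _ ≤ 2 ^ (j ^ 2) := Nat.pow_le_pow_right (by norm_num) (by nlinarith [Nat.zero_le j, sq_nonneg (j - 1 : ℤ), Nat.le_self_pow (n := 2) (by norm_num) j])

lemma kap_nonneg (x : ℝ) : 0 ≤ kap x := le_max_left _ _

lemma kap_le_one (x : ℝ) : kap x ≤ 1 := max_le zero_le_one (min_le_right _ _)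

lemma kap_mono : Monotone kap := by
  intro x y h
  exact max_le_max le_rfl (min_le_min h le_rfl)

lemma kap_sub (x c : ℝ) (hc : 0 ≤ c) : kap x - c ≤ kap (x - c) := by
  unfold kap
  rcases le_total x 0 with h | h
  · have : min x 1 ≤ 0 := (min_le_left _ _).trans h
    rw [max_eq_left this]
    have := le_max_left 0 (min (x - c) 1)
    linarith
  · rcases le_total x 1 with h1 | h1
    · rw [min_eq_left h1, max_eq_right h]
      have : x - c ≤ min (x - c) 1 := le_min le_rfl (by linarith)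
      exact this.trans (le_max_right _ _)
    · rw [min_eq_right h1, max_eq_right zero_le_one]
      have : 1 - c ≤ min (x - c) 1 := le_min (by linarith) (by linarith)
      exact this.trans (le_max_right _ _)

lemma kap_of_nonpos {x : ℝ} (h : x ≤ 0) : kap x = 0 := by
  unfold kap
  exact max_eq_left ((min_le_left _ _).trans h)

lemma w_nonneg (j u : ℕ) : 0 ≤ w j u := by unfold w; split_ifs <;> norm_num

lemma w_le_one (j u : ℕ) : w j u ≤ 1 := by unfold w; split_ifs <;> norm_num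

lemma w_zero (j : ℕ) : w j 0 = 0 := by
  unfold w
  rw [if_neg]
  rintro ⟨h, -⟩
  exact absurd h (Nat.not_le.mpr (a_pos j))

lemma r_nonneg (z : ZZ) : 0 ≤ r z := mul_nonneg (w_nonneg _ _) (kap_nonneg _)

lemma r_le (z : ZZ) : r z ≤ kap z.1 := by
  unfold r
  calc w z.2.1 z.2.2 * kap z.1 ≤ 1 * kap z.1 :=
        mul_le_mul_of_nonneg_right (w_le_one _ _) (kap_nonneg _)
    _ = kap z.1 := one_mul _

lemma r_le_w (z : ZZ) : r z ≤ w z.2.1 z.2.2 := by
  unfold r
  calc w z.2.1 z.2.2 * kap z.1 ≤ w z.2.1 z.2.2 * 1 :=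
        mul_le_mul_of_nonneg_left (kap_le_one _) (w_nonneg _ _)
    _ = w z.2.1 z.2.2 := mul_one _

lemma level_le {s : ℕ → ZZ} (hs : IsPlay s) (t : ℕ) : (s t).1 ≤ (s 0).1 := by
  induction t with
  | zero => exact le_rfl
  | succ t ih =>
    rcases hs t with h | ⟨j, h⟩
    · rw [h]; exact ih
    · rw [h]
      have := c_pos j
      simp only
      linarith

lemma r_play_le {s : ℕ → ZZ} (hs : IsPlay s) (t : ℕ) : r (s (t + 1)) ≤ kap (s 0).1 :=
  (r_le _).trans (kap_mono (level_le hs _))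

lemma payoff_summable {θ : ℕ → ℝ} (h0 : ∀ t, 0 ≤ θ t) (h1 : HasSum θ 1) (s : ℕ → ZZ) :
    Summable (fun t => θ t * r (s (t + 1))) := by
  refine Summable.of_nonneg_of_le (fun t => mul_nonneg (h0 t) (r_nonneg _)) (fun t => ?_) h1.summable
  calc θ t * r (s (t + 1)) ≤ θ t * 1 :=
        mul_le_mul_of_nonneg_left ((r_le _).trans (kap_le_one _)) (h0 t)
    _ = θ t := mul_one _

lemma payoff_le {θ : ℕ → ℝ} (h0 : ∀ t, 0 ≤ θ t) (h1 : HasSum θ 1) {s : ℕ → ZZ} (hs : IsPlay s) :
    ∑' t, θ t * r (s (t + 1)) ≤ kap (s 0).1 := by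
  have h2 : HasSum (fun t => θ t * kap (s 0).1) (1 * kap (s 0).1) := h1.mul_right _
  have h3 := (payoff_summable h0 h1 s)
  calc ∑' t, θ t * r (s (t + 1)) ≤ ∑' t, θ t * kap (s 0).1 :=
        h3.tsum_le_tsum (fun t => mul_le_mul_of_nonneg_left (r_play_le hs t) (h0 t)) h2.summable
    _ = kap (s 0).1 := by rw [h2.tsum_eq, one_mul]

lemma val_bdd {θ : ℕ → ℝ} (h0 : ∀ t, 0 ≤ θ t) (h1 : HasSum θ 1) (z : ZZ) :
    BddAbove {x : ℝ | ∃ s : ℕ → ZZ, s 0 = z ∧ (∀ t, s (t + 1) ∈ F (s t)) ∧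
      x = ∑' t, θ t * r (s (t + 1))} := by
  refine ⟨kap z.1, ?_⟩
  rintro x ⟨s, hs0, hs, rfl⟩
  rw [← hs0]
  exact payoff_le h0 h1 hs

lemma val_set_nonempty (θ : ℕ → ℝ) (z : ZZ) :
    Set.Nonempty {x : ℝ | ∃ s : ℕ → ZZ, s 0 = z ∧ (∀ t, s (t + 1) ∈ F (s t)) ∧
      x = ∑' t, θ t * r (s (t + 1))} := by
  refine ⟨_, fun t => (z.1, z.2.1, z.2.2 + t), ?_, ?_, rfl⟩
  · simp
  · intro t
    left
    simp only [Nat.add_assoc]

lemma val_le {θ : ℕ → ℝ} {z : ZZ} {B : ℝ}
    (h : ∀ s : ℕ → ZZ, s 0 = z → IsPlay s → ∑' t, θ t * r (s (t + 1)) ≤ B) : val θ z ≤ B := by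
  apply csSup_le (val_set_nonempty θ z)
  rintro x ⟨s, hs0, hs, rfl⟩
  exact h s hs0 hs

lemma le_val {θ : ℕ → ℝ} (h0 : ∀ t, 0 ≤ θ t) (h1 : HasSum θ 1) {z : ZZ} (s : ℕ → ZZ)
    (hs0 : s 0 = z) (hs : IsPlay s) : ∑' t, θ t * r (s (t + 1)) ≤ val θ z :=
  le_csSup (val_bdd h0 h1 z) ⟨s, hs0, hs, rfl⟩

/-- Cesaro evaluations. -/
noncomputable def ces (n t : ℕ) : ℝ := if t < n + 1 then 1 / ((n : ℝ) + 1) else 0

lemma ces_nonneg (n t : ℕ) : 0 ≤ ces n t := by unfold ces; split_ifs <;> positivity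

lemma ces_hasSum (n : ℕ) : HasSum (ces n) 1 := by
  have h : HasSum (ces n) (∑ t ∈ Finset.range (n + 1), ces n t) := by
    apply hasSum_sum_of_ne_finset_zero
    intro t ht
    unfold ces
    rw [if_neg]
    simpa using ht
  convert h using 1
  have : ∑ t ∈ Finset.range (n + 1), ces n t = ∑ t ∈ Finset.range (n + 1), 1 / ((n : ℝ) + 1) := by
    apply Finset.sum_congr rfl
    intro t ht
    unfold ces
    rw [if_pos (by simpa using ht)]
  rw [this, Finset.sum_const, Finset.card_range, nsmul_eq_mul]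
  have : ((n : ℝ) + 1) ≠ 0 := by positivity
  push_cast
  exact (mul_one_div_cancel this).symm

lemma exists_scale (ε : ℝ) (hε : 0 < ε) : ∃ n0 : ℕ, ∀ n ≥ n0, ∃ J : ℕ,
    a J ≤ n + 1 ∧ n + 1 ≤ a (J + 2) ∧ c J + (a J : ℝ) / ((n : ℝ) + 1) < ε := by
  obtain ⟨M, hM⟩ := exists_nat_one_div_lt (half_pos hε)
  refine ⟨a (M ^ 2 + 1), fun n hn => ?_⟩
  have hex : ∃ J, n + 1 < a (J + 2) := ⟨n, lt_of_le_of_lt (by omega) (lt_a (n + 2))⟩
  classical
  let J := Nat.find hex
  have hJ : n + 1 < a (J + 2) := Nat.find_spec hex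
  have hJmin : ∀ i < J, ¬ (n + 1 < a (i + 2)) := fun i hi => Nat.find_min hex hi
  have hJM : M ^ 2 ≤ J := by
    by_contra hlt
    push Not at hlt
    have : a (J + 2) ≤ a (M ^ 2 + 1) := a_mono (by omega)
    omega
  have hJ1 : a (J + 1) ≤ n + 1 := by
    rcases Nat.eq_zero_or_pos J with h | h
    · have : a (J + 1) ≤ a (M ^ 2 + 1) := a_mono (by omega)
      omega
    · have := hJmin (J - 1) (by omega)
      have h2 : J - 1 + 2 = J + 1 := by omega
      rw [h2] at this
      omega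
  refine ⟨J, (a_mono (Nat.le_succ J)).trans hJ1, hJ.le, ?_⟩
  have hM1 : M ≤ J := le_trans (by nlinarith [Nat.le_self_pow (n := 2) (by norm_num) M]) hJM
  have h1 : c J ≤ 1 / ((M : ℝ) + 1) := by
    unfold c
    apply one_div_le_one_div_of_le (by positivity)
    have : M ≤ Nat.sqrt J := by
      rw [Nat.le_sqrt]
      nlinarith
    have : (M : ℝ) ≤ (Nat.sqrt J : ℝ) := by exact_mod_cast this
    linarith
  have h2 : (a J : ℝ) / ((n : ℝ) + 1) ≤ 1 / ((M : ℝ) + 1) := by
    have h3 : a J * (M + 1) ≤ n + 1 := by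
      refine le_trans ?_ hJ1
      unfold a
      have h4 : (J + 1) ^ 2 = J ^ 2 + (2 * J + 1) := by ring
      rw [h4, pow_add]
      apply Nat.mul_le_mul_left
      have : 2 * J + 1 < 2 ^ (2 * J + 1) := Nat.lt_two_pow_self
      omega
    have h5 : (a J : ℝ) * ((M : ℝ) + 1) ≤ (n : ℝ) + 1 := by exact_mod_cast h3
    rw [div_le_div_iff₀ (by positivity) (by positivity)]
    linarith
  linarith

lemma ces_lower (n J : ℕ) (h1 : a J ≤ n + 1) (h2 : n + 1 ≤ a (J + 2)) (z : ZZ) :
    kap z.1 - (c J + (a J : ℝ) / ((n : ℝ) + 1)) ≤ val (ces n) z := by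
  let s : ℕ → ZZ := fun t => Nat.casesOn t z (fun t => (z.1 - c J, J, t))
  have hs0 : s 0 = z := rfl
  have hs1 : ∀ t, s (t + 1) = (z.1 - c J, J, t) := fun t => rfl
  have hs : IsPlay s := by
    intro t
    rcases t with _ | t
    · right
      exact ⟨J, rfl⟩
    · left
      rfl
  refine le_trans ?_ (le_val (ces_nonneg n) (ces_hasSum n) s hs0 hs)
  have h3 : ∑' t, ces n t * r (s (t + 1)) = ∑ t ∈ Finset.range (n + 1), ces n t * r (s (t + 1)) := by
    apply tsum_eq_sum
    intro t ht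
    unfold ces
    rw [if_neg (by simpa using ht), zero_mul]
  rw [h3]
  have h4 : ∑ t ∈ Finset.range (n + 1), ces n t * r (s (t + 1)) =
      (1 / ((n : ℝ) + 1) * kap (z.1 - c J)) * ∑ t ∈ Finset.range (n + 1), w J t := by
    rw [Finset.mul_sum]
    apply Finset.sum_congr rfl
    intro t ht
    unfold ces
    rw [if_pos (by simpa using ht), hs1]
    unfold r
    simp only
    ring
  rw [h4]
  have h5 : ((n : ℝ) + 1) - a J ≤ ∑ t ∈ Finset.range (n + 1), w J t := by
    have h6 : ∑ t ∈ Finset.Ico (a J) (n + 1), w J t ≤ ∑ t ∈ Finset.range (n + 1), w J t := by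
      apply Finset.sum_le_sum_of_subset_of_nonneg
      · intro t ht
        simp only [Finset.mem_Ico] at ht
        simpa using ht.2
      · intro t _ _
        exact w_nonneg _ _
    have h7 : ∑ t ∈ Finset.Ico (a J) (n + 1), w J t = ∑ t ∈ Finset.Ico (a J) (n + 1), (1 : ℝ) := by
      apply Finset.sum_congr rfl
      intro t ht
      simp only [Finset.mem_Ico] at ht
      unfold w
      rw [if_pos ⟨ht.1, lt_of_lt_of_le ht.2 h2⟩]
    rw [h7, Finset.sum_const, Nat.card_Ico, nsmul_eq_mul, mul_one, Nat.cast_sub h1] at h6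
    push_cast at h6
    exact h6
  have hn : (0 : ℝ) < (n : ℝ) + 1 := by positivity
  have hk0 := kap_nonneg (z.1 - c J)
  have hk1 := kap_le_one (z.1 - c J)
  have hk2 := kap_sub z.1 (c J) (c_pos J).le
  have haj : (0 : ℝ) ≤ (a J : ℝ) / ((n : ℝ) + 1) := by positivity
  calc kap z.1 - (c J + (a J : ℝ) / ((n : ℝ) + 1))
      ≤ kap (z.1 - c J) - kap (z.1 - c J) * ((a J : ℝ) / ((n : ℝ) + 1)) := by nlinarith
    _ = (1 / ((n : ℝ) + 1) * kap (z.1 - c J)) * (((n : ℝ) + 1) - a J) := by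
        field_simp
    _ ≤ _ := by
        apply mul_le_mul_of_nonneg_left h5
        positivity

lemma ces_upper (n : ℕ) (z : ZZ) : val (ces n) z ≤ kap z.1 := by
  apply val_le
  intro s hs0 hs
  rw [← hs0]
  exact payoff_le (ces_nonneg n) (ces_hasSum n) hs

/-- Harmonic sums. -/
noncomputable def H (n : ℕ) : ℝ := ∑ t ∈ Finset.range n, 1 / ((t : ℝ) + 1)

lemma H_succ_le (m : ℕ) : H (2 ^ (m + 1)) ≤ H (2 ^ m) + 1 := by
  have h : 2 ^ m ≤ 2 ^ (m + 1) := Nat.pow_le_pow_right (by norm_num) (Nat.le_succ m)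
  have h1 : H (2 ^ (m + 1)) - H (2 ^ m) = ∑ t ∈ Finset.Ico ((2 : ℕ) ^ m) ((2 : ℕ) ^ (m + 1)), 1 / ((t : ℝ) + 1) := by
    unfold H
    rw [Finset.sum_Ico_eq_sub _ h]
  have h2 : ∑ t ∈ Finset.Ico ((2 : ℕ) ^ m) ((2 : ℕ) ^ (m + 1)), 1 / ((t : ℝ) + 1) ≤
      ∑ t ∈ Finset.Ico ((2 : ℕ) ^ m) ((2 : ℕ) ^ (m + 1)), 1 / ((2 : ℝ) ^ m) := by
    apply Finset.sum_le_sum
    intro t ht
    simp only [Finset.mem_Ico] at ht
    apply one_div_le_one_div_of_le (by positivity)
    have : ((2 ^ m : ℕ) : ℝ) ≤ (t : ℝ) := by exact_mod_cast ht.1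
    push_cast at this
    linarith
  rw [Finset.sum_const, Nat.card_Ico, nsmul_eq_mul] at h2
  have h3 : ((2 ^ (m + 1) - 2 ^ m : ℕ) : ℝ) = 2 ^ m := by
    rw [Nat.cast_sub h]
    push_cast
    ring
  rw [h3] at h2
  have h4 : (2 : ℝ) ^ m * (1 / (2 : ℝ) ^ m) = 1 := by
    have : (2 : ℝ) ^ m ≠ 0 := by positivity
    field_simp
  linarith

lemma H_succ_ge (m : ℕ) : H (2 ^ m) + 1 / 2 ≤ H (2 ^ (m + 1)) := by
  have h : 2 ^ m ≤ 2 ^ (m + 1) := Nat.pow_le_pow_right (by norm_num) (Nat.le_succ m)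
  have h1 : H (2 ^ (m + 1)) - H (2 ^ m) = ∑ t ∈ Finset.Ico ((2 : ℕ) ^ m) ((2 : ℕ) ^ (m + 1)), 1 / ((t : ℝ) + 1) := by
    unfold H
    rw [Finset.sum_Ico_eq_sub _ h]
  have h2 : ∑ t ∈ Finset.Ico ((2 : ℕ) ^ m) ((2 : ℕ) ^ (m + 1)), 1 / ((2 : ℝ) ^ (m + 1)) ≤
      ∑ t ∈ Finset.Ico ((2 : ℕ) ^ m) ((2 : ℕ) ^ (m + 1)), 1 / ((t : ℝ) + 1) := by
    apply Finset.sum_le_sum
    intro t ht
    simp only [Finset.mem_Ico] at ht
    apply one_div_le_one_div_of_le (by positivity)
    have : ((t + 1 : ℕ) : ℝ) ≤ ((2 ^ (m + 1) : ℕ) : ℝ) := by exact_mod_cast ht.2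
    push_cast at this
    linarith
  rw [Finset.sum_const, Nat.card_Ico, nsmul_eq_mul] at h2
  have h3 : ((2 ^ (m + 1) - 2 ^ m : ℕ) : ℝ) = 2 ^ m := by
    rw [Nat.cast_sub h]
    push_cast
    ring
  rw [h3] at h2
  have h4 : (2 : ℝ) ^ m * (1 / (2 : ℝ) ^ (m + 1)) = 1 / 2 := by
    have : (2 : ℝ) ^ m ≠ 0 := by positivity
    rw [pow_succ]
    field_simp
  linarith

lemma H_add_le (m d : ℕ) : H (2 ^ (m + d)) ≤ H (2 ^ m) + d := by
  induction d with
  | zero => simp
  | succ d ih =>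
    have := H_succ_le (m + d)
    have h : m + (d + 1) = m + d + 1 := by ring
    rw [h]
    push_cast
    linarith

lemma H_ge (m : ℕ) : (m : ℝ) / 2 ≤ H (2 ^ m) := by
  induction m with
  | zero => simp [H]
  | succ m ih =>
    have := H_succ_ge m
    push_cast
    linarith

/-- Logarithmic evaluation number k. -/
noncomputable def th (k t : ℕ) : ℝ :=
  if t < a ((k + 1) ^ 2) then 1 / ((t : ℝ) + 1) / H (a ((k + 1) ^ 2)) else 0

lemma Ha_ge (k : ℕ) : ((k : ℝ) + 1) ^ 4 / 2 ≤ H (a ((k + 1) ^ 2)) := by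
  have := H_ge (((k + 1) ^ 2) ^ 2)
  unfold a
  push_cast at this
  have h : (((k : ℝ) + 1) ^ 2) ^ 2 = ((k : ℝ) + 1) ^ 4 := by ring
  rw [h] at this
  exact this

lemma Ha_pos (k : ℕ) : 0 < H (a ((k + 1) ^ 2)) :=
  lt_of_lt_of_le (by positivity) (Ha_ge k)

lemma th_nonneg (k t : ℕ) : 0 ≤ th k t := by
  unfold th
  split_ifs
  · have := Ha_pos k
    positivity
  · exact le_rfl

lemma th_hasSum (k : ℕ) : HasSum (th k) 1 := by
  have h : HasSum (th k) (∑ t ∈ Finset.range (a ((k + 1) ^ 2)), th k t) := by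
    apply hasSum_sum_of_ne_finset_zero
    intro t ht
    unfold th
    rw [if_neg]
    simpa using ht
  convert h using 1
  have : ∑ t ∈ Finset.range (a ((k + 1) ^ 2)), th k t =
      (∑ t ∈ Finset.range (a ((k + 1) ^ 2)), 1 / ((t : ℝ) + 1)) / H (a ((k + 1) ^ 2)) := by
    rw [Finset.sum_div]
    apply Finset.sum_congr rfl
    intro t ht
    unfold th
    rw [if_pos (by simpa using ht)]
  rw [this]
  exact (div_self (Ha_pos k).ne').symm

lemma th_anti (k : ℕ) : Antitone (th k) := by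
  apply antitone_nat_of_succ_le
  intro t
  unfold th
  have hp := Ha_pos k
  split_ifs with h1 h2
  · apply div_le_div_of_nonneg_right _ hp.le
    apply one_div_le_one_div_of_le (by positivity)
    push_cast
    linarith
  · omega
  · positivity
  · exact le_rfl

lemma th_window (k n j : ℕ) :
    ∑ t ∈ Finset.range n, th k (t + 1) * w j (t + 1) ≤ 8 / ((k : ℝ) + 1) * c j := by
  by_cases hj : j < (k + 1) ^ 2
  · have h1 : ∑ t ∈ Finset.range n, th k (t + 1) * w j (t + 1) ≤
        ∑ u ∈ Finset.range (n + 1), th k u * w j u := by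
      rw [Finset.sum_range_succ']
      have := mul_nonneg (th_nonneg k 0) (w_nonneg j 0)
      linarith
    have h2 : ∑ u ∈ Finset.range (n + 1), th k u * w j u ≤
        ∑ u ∈ Finset.Ico (a j) (a (j + 2)), 1 / ((u : ℝ) + 1) / H (a ((k + 1) ^ 2)) := by
      have h3 : ∑ u ∈ Finset.range (n + 1), th k u * w j u =
          ∑ u ∈ (Finset.range (n + 1)).filter (fun u => a j ≤ u ∧ u < a (j + 2)), th k u := by
        rw [Finset.sum_filter]
        apply Finset.sum_congr rfl
        intro u _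
        unfold w
        split_ifs <;> simp
      rw [h3]
      calc ∑ u ∈ (Finset.range (n + 1)).filter (fun u => a j ≤ u ∧ u < a (j + 2)), th k u
          ≤ ∑ u ∈ Finset.Ico (a j) (a (j + 2)), th k u := by
            apply Finset.sum_le_sum_of_subset_of_nonneg
            · intro u hu
              simp only [Finset.mem_filter] at hu
              simpa using hu.2
            · intro u _ _
              exact th_nonneg _ _
        _ ≤ _ := by
            apply Finset.sum_le_sum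
            intro u _
            unfold th
            have := Ha_pos k
            split_ifs
            · exact le_rfl
            · positivity
    have h4 : ∑ u ∈ Finset.Ico (a j) (a (j + 2)), 1 / ((u : ℝ) + 1) / H (a ((k + 1) ^ 2)) =
        (H (a (j + 2)) - H (a j)) / H (a ((k + 1) ^ 2)) := by
      rw [← Finset.sum_div]
      congr 1
      unfold H
      rw [Finset.sum_Ico_eq_sub _ (a_mono (by omega))]
    have h5 : H (a (j + 2)) ≤ H (a j) + ((4 * j + 4 : ℕ) : ℝ) := by
      have := H_add_le (j ^ 2) (4 * j + 4)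
      have h6 : j ^ 2 + (4 * j + 4) = (j + 2) ^ 2 := by ring
      rw [h6] at this
      exact this
    have h7 : ((4 * j + 4 : ℕ) : ℝ) ≤ 4 * ((k : ℝ) + 1) ^ 2 := by
      have : 4 * j + 4 ≤ 4 * (k + 1) ^ 2 := by omega
      exact_mod_cast this
    have h8 : (H (a (j + 2)) - H (a j)) / H (a ((k + 1) ^ 2)) ≤ 8 / ((k : ℝ) + 1) ^ 2 := by
      have hp := Ha_pos k
      have hge := Ha_ge k
      have hk : (0 : ℝ) < (k : ℝ) + 1 := by positivity
      rw [div_le_div_iff₀ hp (by positivity)]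
      calc (H (a (j + 2)) - H (a j)) * ((k : ℝ) + 1) ^ 2 ≤ (4 * ((k : ℝ) + 1) ^ 2) * ((k : ℝ) + 1) ^ 2 := by
            apply mul_le_mul_of_nonneg_right _ (by positivity)
            linarith
        _ = 8 * (((k : ℝ) + 1) ^ 4 / 2) := by ring
        _ ≤ 8 * H (a ((k + 1) ^ 2)) := by linarith
    have h9 : 1 / ((k : ℝ) + 1) ≤ c j := by
      unfold c
      apply one_div_le_one_div_of_le (by positivity)
      have : Nat.sqrt j < k + 1 := by
        rw [Nat.sqrt_lt']
        exact hj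
      have : Nat.sqrt j ≤ k := by omega
      have : (Nat.sqrt j : ℝ) ≤ (k : ℝ) := by exact_mod_cast this
      linarith
    have h10 : 8 / ((k : ℝ) + 1) ^ 2 ≤ 8 / ((k : ℝ) + 1) * c j := by
      have hk : (0 : ℝ) < (k : ℝ) + 1 := by positivity
      calc 8 / ((k : ℝ) + 1) ^ 2 = 8 / ((k : ℝ) + 1) * (1 / ((k : ℝ) + 1)) := by
            field_simp
        _ ≤ _ := mul_le_mul_of_nonneg_left h9 (by positivity)
    linarith
  · push Not at hj
    have h0 : ∑ t ∈ Finset.range n, th k (t + 1) * w j (t + 1) = 0 := by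
      apply Finset.sum_eq_zero
      intro t _
      by_cases h : a j ≤ t + 1
      · have := a_mono hj
        unfold th
        rw [if_neg (by omega), zero_mul]
      · unfold w
        rw [if_neg (fun h' => h h'.1), mul_zero]
    rw [h0]
    have := c_pos j
    positivity

lemma main_bound (k n : ℕ) : ∀ (T : ℕ) (s : ℕ → ZZ), IsPlay s →
    ∑ t ∈ Finset.range n, th k (T + t) * r (s (t + 1)) ≤
      (if 0 < (s 0).1 then
        ∑ t ∈ Finset.range n, th k (T + t) * w (s 0).2.1 ((s 0).2.2 + t + 1) else 0)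
      + 8 / ((k : ℝ) + 1) * max (s 0).1 0 := by
  induction n with
  | zero =>
    intro T s _
    have : 0 ≤ 8 / ((k : ℝ) + 1) * max (s 0).1 0 :=
      mul_nonneg (by positivity) (le_max_right _ _)
    simpa using this
  | succ n ih =>
    intro T s hs
    have hs' : IsPlay (fun t => s (t + 1)) := fun t => hs (t + 1)
    have IH := ih (T + 1) (fun t => s (t + 1)) hs'
    simp only [zero_add] at IH
    have e1 : ∑ t ∈ Finset.range (n + 1), th k (T + t) * r (s (t + 1)) =
        (∑ t ∈ Finset.range n, th k (T + 1 + t) * r (s (t + 1 + 1))) + th k T * r (s 1) := by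
      rw [Finset.sum_range_succ']
      simp only [add_zero, zero_add]
      congr 1
      apply Finset.sum_congr rfl
      intro t _
      rw [show T + (t + 1) = T + 1 + t by ring]
    have e2 : ∀ j u : ℕ, ∑ t ∈ Finset.range (n + 1), th k (T + t) * w j (u + t + 1) =
        (∑ t ∈ Finset.range n, th k (T + 1 + t) * w j (u + 1 + t + 1)) + th k T * w j (u + 1) := by
      intro j u
      rw [Finset.sum_range_succ']
      simp only [add_zero]
      congr 1
      apply Finset.sum_congr rfl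
      intro t _
      rw [show T + (t + 1) = T + 1 + t by ring, show u + (t + 1) + 1 = u + 1 + t + 1 by ring]
    rw [e1, e2]
    have hk : (0 : ℝ) < (k : ℝ) + 1 := by positivity
    have hth := th_nonneg k T
    have hsum : ∀ j u : ℕ, 0 ≤ (∑ t ∈ Finset.range n, th k (T + 1 + t) * w j (u + 1 + t + 1)) +
        th k T * w j (u + 1) := by
      intro j u
      apply add_nonneg
      · exact Finset.sum_nonneg (fun t _ => mul_nonneg (th_nonneg _ _) (w_nonneg _ _))
      · exact mul_nonneg hth (w_nonneg _ _)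
    rcases hs 0 with h | ⟨j, h⟩
    · have h' : s 1 = ((s 0).1, (s 0).2.1, (s 0).2.2 + 1) := h
      rw [h'] at IH
      simp only at IH
      by_cases hx : 0 < (s 0).1
      · rw [if_pos hx] at IH ⊢
        have h3 : r (s 1) ≤ w (s 0).2.1 ((s 0).2.2 + 1) := by
          rw [h']
          exact r_le_w _
        have h4 := mul_le_mul_of_nonneg_left h3 hth
        linarith
      · rw [if_neg hx] at IH ⊢
        have h3 : r (s 1) = 0 := by
          rw [h']
          unfold r
          simp only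
          rw [kap_of_nonpos (not_lt.mp hx), mul_zero]
        rw [h3, mul_zero]
        linarith
    · have h' : s 1 = ((s 0).1 - c j, j, 0) := h
      rw [h'] at IH
      simp only at IH
      have h3 : r (s 1) = 0 := by
        rw [h']
        unfold r
        simp only
        rw [w_zero, zero_mul]
      rw [h3, mul_zero, add_zero]
      have hge : 0 ≤ (if 0 < (s 0).1 then
          (∑ t ∈ Finset.range n, th k (T + 1 + t) * w (s 0).2.1 ((s 0).2.2 + 1 + t + 1)) +
          th k T * w (s 0).2.1 ((s 0).2.2 + 1) else 0) := by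
        split_ifs
        · exact hsum _ _
        · exact le_rfl
      refine le_trans IH ?_
      have hc := c_pos j
      by_cases hx : 0 < (s 0).1 - c j
      · rw [if_pos hx, max_eq_left hx.le, max_eq_left (show 0 ≤ (s 0).1 by linarith)]
        have h4 : ∑ t ∈ Finset.range n, th k (T + 1 + t) * w j (0 + t + 1) ≤
            8 / ((k : ℝ) + 1) * c j := by
          refine le_trans ?_ (th_window k n j)
          apply Finset.sum_le_sum
          intro t _
          rw [zero_add]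
          exact mul_le_mul_of_nonneg_right (th_anti k (by omega)) (w_nonneg _ _)
        nlinarith
      · rw [if_neg hx, max_eq_right (not_lt.mp hx)]
        have : 0 ≤ 8 / ((k : ℝ) + 1) * max (s 0).1 0 :=
          mul_nonneg (by positivity) (le_max_right _ _)
        linarith

/-- The reference state. -/
def z0 : ZZ := (1, 0, a 2)

lemma th_val_le (k : ℕ) : val (th k) z0 ≤ 8 / ((k : ℝ) + 1) := by
  apply val_le
  intro s hs0 hs
  have h1 : ∑' t, th k t * r (s (t + 1)) =
      ∑ t ∈ Finset.range (a ((k + 1) ^ 2)), th k t * r (s (t + 1)) := by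
    apply tsum_eq_sum
    intro t ht
    unfold th
    rw [if_neg (by simpa using ht), zero_mul]
  rw [h1]
  have h2 := main_bound k (a ((k + 1) ^ 2)) 0 s hs
  simp only [zero_add] at h2
  refine le_trans h2 ?_
  rw [hs0]
  have h3 : ∑ t ∈ Finset.range (a ((k + 1) ^ 2)), th k t * w z0.2.1 (z0.2.2 + t + 1) = 0 := by
    apply Finset.sum_eq_zero
    intro t _
    unfold w z0
    rw [if_neg, mul_zero]
    simp only
    rintro ⟨-, h⟩
    rw [show 0 + 2 = 2 from rfl] at h
    omega
  rw [h3]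
  have h4 : (z0.1 : ℝ) = 1 := rfl
  rw [h4]
  simp

lemma tv_eq (f : ℕ → ℝ) (hf : Antitone f) (N : ℕ) (h0 : ∀ t, N ≤ t → f t = 0) :
    ∑' t, |f (t + 1) - f t| = f 0 := by
  have h1 : ∑' t, |f (t + 1) - f t| = ∑ t ∈ Finset.range N, |f (t + 1) - f t| := by
    apply tsum_eq_sum
    intro t ht
    have : N ≤ t := by simpa using ht
    rw [h0 t this, h0 (t + 1) (by omega)]
    simp
  rw [h1]
  have h2 : ∑ t ∈ Finset.range N, |f (t + 1) - f t| = ∑ t ∈ Finset.range N, (f t - f (t + 1)) := by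
    apply Finset.sum_congr rfl
    intro t _
    have := hf (Nat.le_succ t)
    rw [abs_of_nonpos (by simp only [Nat.succ_eq_add_one] at this; linarith)]
    ring
  rw [h2, Finset.sum_range_sub', h0 N le_rfl, sub_zero]

lemma ces_anti (n : ℕ) : Antitone (ces n) := by
  apply antitone_nat_of_succ_le
  intro t
  unfold ces
  split_ifs
  · exact le_rfl
  · omega
  · positivity
  · exact le_rfl

/-- The interleaved sequence of evaluations. -/
noncomputable def Th (m : ℕ) : ℕ → ℝ := if m % 2 = 0 then th (m / 2) else ces (m / 2)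

lemma Th_nonneg (m t : ℕ) : 0 ≤ Th m t := by
  unfold Th
  split_ifs
  · exact th_nonneg _ _
  · exact ces_nonneg _ _

lemma Th_hasSum (m : ℕ) : HasSum (Th m) 1 := by
  unfold Th
  split_ifs
  · exact th_hasSum _
  · exact ces_hasSum _

lemma Th_tv (m : ℕ) : ∑' t, |Th m (t + 1) - Th m t| ≤ 2 / (((m / 2 : ℕ) : ℝ) + 1) := by
  unfold Th
  split_ifs
  · rw [tv_eq _ (th_anti _) (a ((m / 2 + 1) ^ 2))]
    · unfold th
      rw [if_pos (a_pos _)]
      have hge := Ha_ge (m / 2)
      have hp := Ha_pos (m / 2)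
      simp only [Nat.cast_zero, zero_add, div_one]
      rw [div_le_div_iff₀ hp (by positivity)]
      set q : ℝ := ((m / 2 : ℕ) : ℝ) with hq
      have hq0 : 0 ≤ q := by positivity
      have : q + 1 ≤ (q + 1) ^ 4 := by
        calc q + 1 = (q + 1) ^ 1 := by ring
          _ ≤ (q + 1) ^ 4 := pow_le_pow_right₀ (by linarith) (by norm_num)
      linarith
    · intro t ht
      unfold th
      rw [if_neg (by omega)]
  · rw [tv_eq _ (ces_anti _) (m / 2 + 1)]
    · unfold ces
      rw [if_pos (by omega)]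
      apply div_le_div_of_nonneg_right _ (by positivity)
      norm_num
    · intro t ht
      unfold ces
      rw [if_neg (by omega)]

lemma ces_uniform :
    TendstoUniformly (fun (n : ℕ) (z : ZZ) => val (ces n) z) (fun z => kap z.1) atTop := by
  rw [Metric.tendstoUniformly_iff]
  intro ε hε
  obtain ⟨n0, hn0⟩ := exists_scale ε hε
  filter_upwards [eventually_ge_atTop n0] with n hn z
  obtain ⟨J, hJ1, hJ2, hJ3⟩ := hn0 n hn
  have h1 := ces_lower n J hJ1 hJ2 z
  have h2 := ces_upper n z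
  rw [Real.dist_eq, abs_lt]
  constructor <;> linarith

lemma Th_anti (m : ℕ) : Antitone (Th m) := by
  unfold Th
  split_ifs
  · exact th_anti _
  · exact ces_anti _

lemma Th_tv_tendsto : Tendsto (fun m => ∑' t, |Th m (t + 1) - Th m t|) atTop (𝓝 0) := by
  have hlim : Tendsto (fun m : ℕ => 2 / (((m / 2 : ℕ) : ℝ) + 1)) atTop (𝓝 0) := by
    have h1 : Tendsto (fun m : ℕ => ((m / 2 : ℕ) : ℝ) + 1) atTop atTop := by
      apply tendsto_atTop_add_const_right
      apply tendsto_natCast_atTop_atTop.comp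
      exact Nat.tendsto_div_const_atTop (by norm_num)
    exact Tendsto.const_div_atTop h1 2
  exact squeeze_zero (fun m => tsum_nonneg (fun t => abs_nonneg _)) Th_tv hlim

lemma th_tv_tendsto : Tendsto (fun k => ∑' t, |th k (t + 1) - th k t|) atTop (𝓝 0) := by
  have hE : Tendsto (fun k : ℕ => 2 * k) atTop atTop :=
    tendsto_atTop_mono (fun k => by simp only [id]; omega) tendsto_id
  have h := Th_tv_tendsto.comp hE
  refine h.congr (fun k => ?_)
  simp only [Function.comp]
  unfold Th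
  rw [if_pos (by omega), show 2 * k / 2 = k by omega]

lemma th_val_nonneg (k : ℕ) : 0 ≤ val (th k) z0 := by
  unfold val
  apply Real.sSup_nonneg
  rintro x ⟨s, -, -, rfl⟩
  exact tsum_nonneg (fun t => mul_nonneg (th_nonneg k t) (r_nonneg _))

lemma kap_z0 : kap z0.1 = 1 := by
  show kap 1 = 1
  unfold kap
  simp

lemma Th_diverges : ¬ ∃ y : ℝ, Tendsto (fun m => val (Th m) z0) atTop (𝓝 y) := by
  rintro ⟨y, hpt⟩
  have hE : Tendsto (fun k : ℕ => 2 * k) atTop atTop :=
    tendsto_atTop_mono (fun k => by simp only [id]; omega) tendsto_id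
  have hO : Tendsto (fun k : ℕ => 2 * k + 1) atTop atTop :=
    tendsto_atTop_mono (fun k => by simp only [id]; omega) tendsto_id
  have h1 := hpt.comp hE
  have h2 := hpt.comp hO
  have h3 : Tendsto (fun k => val (ces k) z0) atTop (𝓝 (kap z0.1)) := ces_uniform.tendsto_at z0
  have e1 : (fun m => val (Th m) z0) ∘ (fun k : ℕ => 2 * k) = fun k => val (th k) z0 := by
    funext k
    simp only [Function.comp]
    unfold Th
    rw [if_pos (by omega), show 2 * k / 2 = k by omega]
  have e2 : (fun m => val (Th m) z0) ∘ (fun k : ℕ => 2 * k + 1) = fun k => val (ces k) z0 := by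
    funext k
    simp only [Function.comp]
    unfold Th
    rw [if_neg (by omega), show (2 * k + 1) / 2 = k by omega]
  rw [e1] at h1
  rw [e2] at h2
  have h4 : y = kap z0.1 := tendsto_nhds_unique h2 h3
  have h6 : Tendsto (fun k : ℕ => 8 / ((k : ℝ) + 1)) atTop (𝓝 0) := by
    have h1 : Tendsto (fun m : ℕ => (m : ℝ) + 1) atTop atTop :=
      tendsto_atTop_add_const_right _ _ tendsto_natCast_atTop_atTop
    exact Tendsto.const_div_atTop h1 8
  have h7 : y ≤ 0 := le_of_tendsto_of_tendsto' h1 h6 th_val_le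
  rw [h4, kap_z0] at h7
  linarith

end DPV
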